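import Pool.Agent.NH64.MeasDiscFin

/-!
# A lower bound for the star discrepancy with respect to measures with a local Hölder density

For every dimension `d ≥ 3` and every probability measure `μ` on `[0,1]^d` which on some small cube
`∏ [a_i, a_i + δ]` has a density `f` with `f a > 0` and `|f x - f a| ≤ L |x - a|^α`, every
`N`-point set has `N D_N^*(μ) ≥ c (log N)^(d/2) / (1 + log log N)^A` for all `N ≥ N₀(μ)`, where `A`
depends only on `d` and `c > 0` only on `d` and `α`. Nothing is assumed about `μ` outside the small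
cube.
-/

set_option autoImplicit false

open MeasureTheory

namespace Pool.Agent.Results.MP_507a17_nt.LocalHolderDensity

/-- The star discrepancy of `x 0, …, x (N-1)` with respect to `μ`: the supremum over all boxes
`[0, y]`, `y ∈ [0,1]^d`, of `|#{n : x n ∈ [0, y]} / N - μ [0, y]|`. -/
noncomputable def starDisc {d N : ℕ} (μ : Measure (Fin d → ℝ)) (x : Fin N → Fin d → ℝ) : ℝ :=
  sSup {r : ℝ | ∃ y ∈ Set.Icc (0 : Fin d → ℝ) 1,
    r = |(({n : Fin N | x n ∈ Set.Icc 0 y}.ncard : ℕ) : ℝ) / N - (μ (Set.Icc 0 y)).toReal|}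

/-- On some cube `Q = ∏ [a_i, a_i + δ]` contained in `[0,1]^d` the measure `μ` has a density `f`
with `f a > 0` and `|f x - f a| ≤ L ‖x - a‖^α` for `x ∈ Q` (`‖ ‖` is the maximum norm). -/
def HolderDensityAt {d : ℕ} (μ : Measure (Fin d → ℝ)) (α : ℝ) : Prop :=
  ∃ (a : Fin d → ℝ) (δ L : ℝ) (f : (Fin d → ℝ) → ℝ), 0 < δ ∧ (∀ i, 0 ≤ a i ∧ a i + δ ≤ 1) ∧
    0 ≤ L ∧ 0 < f a ∧ (∀ x ∈ Set.Icc a (a + fun _ => δ), |f x - f a| ≤ L * ‖x - a‖ ^ α) ∧
    μ.restrict (Set.Icc a (a + fun _ => δ)) =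
      (volume.restrict (Set.Icc a (a + fun _ => δ))).withDensity (fun x => ENNReal.ofReal (f x))

theorem result (d : ℕ) (hd : 3 ≤ d) : ∃ A : ℕ, ∀ α : ℝ, 0 < α → ∃ c : ℝ, 0 < c ∧
    ∀ (μ : Measure (Fin d → ℝ)), IsProbabilityMeasure μ → μ (Set.Icc (0 : Fin d → ℝ) 1)ᶜ = 0 →
      HolderDensityAt μ α → ∃ N₀ : ℕ, 3 ≤ N₀ ∧ ∀ N : ℕ, N₀ ≤ N → ∀ x : Fin N → Fin d → ℝ,
        (∀ n, x n ∈ Set.Icc (0 : Fin d → ℝ) 1) →
          c * (Real.log N) ^ ((d : ℝ) / 2) / (N * (1 + Real.log (Real.log N)) ^ A) ≤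
            starDisc μ x := by
  obtain ⟨A, hA⟩ := Pool.Agent.NH64.MeasDisc.main d hd
  refine ⟨A, fun α hα => ?_⟩
  obtain ⟨c, hc, h⟩ := hA α hα
  refine ⟨c, hc, fun μ hμp _ ⟨a, δ, L, f, h1, h2, h3, h4, h5, h6⟩ => ?_⟩
  obtain ⟨N₀, hN₀, h7⟩ := h μ a δ L f h1 h2 h3 h4 h5 h6
  refine ⟨N₀, hN₀, fun N hN x _ => ?_⟩
  have h8 := h7 N hN x (starDisc μ x) (fun y hy => Pool.Agent.NH64.MeasDisc.le_starDisc μ x y hy)
  have hN0 : (0 : ℝ) < N := by
    have : 0 < N := by omega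
    exact_mod_cast this
  have h9 : c * (Real.log N) ^ ((d : ℝ) / 2) / (N * (1 + Real.log (Real.log N)) ^ A) =
      (c * Pool.Agent.NH64.SeqDisc.g ((d : ℝ) / 2) A N) / N := by
    unfold Pool.Agent.NH64.SeqDisc.g
    rw [mul_comm (N : ℝ), ← div_div, mul_div_assoc]
  rw [h9, div_le_iff₀ hN0, mul_comm (starDisc μ x)]
  exact h8

end Pool.Agent.Results.MP_507a17_nt.LocalHolderDensity
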